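import Mathlib

/-!
# Colourings in which a given colour is not used

`G` is a graph on `V`, `K` a set of colours with `|V| ≤ |K|`. For a set `U` of vertices and a colouring
`g` of `U` we consider all proper colourings which extend `g`, with the uniform distribution.
A colour which is not used by `g` is available to all the other vertices; the main lemma says that the
expected number of vertices outside `U` with this colour is at least that of any other colour.
-/

set_option autoImplicit false

namespace Pool.Agent.ChromRatio12

open Finset Classical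

variable {V K : Type} [Fintype V] [Fintype K]

/-- the proper colourings of `G` which agree with `g` on `U` -/
noncomputable def Om (G : SimpleGraph V) (U : Finset V) (g : V → K) : Finset (V → K) :=
  univ.filter fun f => (∀ x y, G.Adj x y → f x ≠ f y) ∧ ∀ u ∈ U, f u = g u

/-- the number of pairs `(f, x)` with `x` outside `U` and `f x = c` -/
noncomputable def cnt (G : SimpleGraph V) (U : Finset V) (g : V → K) (c : K) : ℕ :=
  ∑ x ∈ Uᶜ, ((Om G U g).filter fun f => f x = c).card

theorem mem_Om {G : SimpleGraph V} {U : Finset V} {g f : V → K} :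
    f ∈ Om G U g ↔ (∀ x y, G.Adj x y → f x ≠ f y) ∧ ∀ u ∈ U, f u = g u := by
  unfold Om; rw [mem_filter]; simp

/-- exposing one more vertex -/
theorem Om_insert (G : SimpleGraph V) (U : Finset V) (g : V → K) {y : V} (hy : y ∉ U) (a : K) :
    Om G (insert y U) (Function.update g y a) = (Om G U g).filter fun f => f y = a := by
  ext f
  rw [mem_filter, mem_Om, mem_Om]
  constructor
  · rintro ⟨h1, h2⟩
    refine ⟨⟨h1, fun u hu => ?_⟩, ?_⟩
    · rw [h2 u (mem_insert_of_mem hu), Function.update_of_ne]
      rintro rfl; exact hy hu
    · rw [h2 y (mem_insert_self y U), Function.update_self]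
  · rintro ⟨⟨h1, h2⟩, h3⟩
    refine ⟨h1, fun u hu => ?_⟩
    rcases mem_insert.1 hu with rfl | hu'
    · rw [h3, Function.update_self]
    · rw [h2 u hu', Function.update_of_ne]
      rintro rfl; exact hy hu'

/-- decomposition of a count according to the colour of `y` -/
theorem card_split (G : SimpleGraph V) (U : Finset V) (g : V → K) {y : V} (hy : y ∉ U) (p : (V → K) → Prop)
    [DecidablePred p] :
    ((Om G U g).filter p).card =
      ∑ a, ((Om G (insert y U) (Function.update g y a)).filter p).card := by
  rw [card_eq_sum_card_fiberwise (f := fun f : V → K => f y) (t := univ) (fun _ _ => by simp)]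
  refine sum_congr rfl fun a _ => ?_
  rw [Om_insert G U g hy a]
  congr 1
  ext f
  simp only [mem_filter]
  tauto

theorem card_split' (G : SimpleGraph V) (U : Finset V) (g : V → K) {y : V} (hy : y ∉ U) :
    (Om G U g).card = ∑ a, (Om G (insert y U) (Function.update g y a)).card := by
  have := card_split G U g hy (fun _ => True)
  simpa using this

theorem compl_eq {U : Finset V} {y : V} (hy : y ∉ U) : Uᶜ = insert y (insert y U)ᶜ := by
  ext x
  simp only [mem_compl, mem_insert, not_or]
  by_cases h : x = y
  · subst h; simp [hy]
  · simp [h]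

theorem cnt_split (G : SimpleGraph V) (U : Finset V) (g : V → K) {y : V} (hy : y ∉ U) (c : K) :
    cnt G U g c = (∑ a, cnt G (insert y U) (Function.update g y a) c) +
      (Om G (insert y U) (Function.update g y c)).card := by
  unfold cnt
  rw [compl_eq hy, sum_insert (by simp), ← Om_insert G U g hy c, add_comm, sum_comm]
  congr 1
  refine sum_congr rfl fun x _ => ?_
  exact card_split G U g hy _

/-- the sum over the colours -/
theorem sum_cnt (G : SimpleGraph V) (U : Finset V) (g : V → K) :
    ∑ c, cnt G U g c = Uᶜ.card * (Om G U g).card := by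
  unfold cnt
  rw [sum_comm]
  have : ∀ x ∈ Uᶜ, ∑ c : K, ((Om G U g).filter fun f => f x = c).card = (Om G U g).card := by
    intro x _
    exact (card_eq_sum_card_fiberwise (f := fun f : V → K => f x) (t := univ) (fun _ _ => by simp)).symm
  rw [sum_congr rfl this, sum_const, smul_eq_mul]

/-- exchange of two colours outside `U` -/
noncomputable def sw (U : Finset V) (c c' : K) (f : V → K) : V → K :=
  fun x => if x ∈ U then f x else Equiv.swap c c' (f x)

omit [Fintype V] [Fintype K] in
theorem sw_sw (U : Finset V) (c c' : K) (f : V → K) : sw U c c' (sw U c c' f) = f := by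
  funext x
  unfold sw
  by_cases h : x ∈ U
  · simp [h]
  · simp [h]

theorem sw_mem {G : SimpleGraph V} {U : Finset V} {g f : V → K} {c c' : K}
    (h1 : ∀ x ∉ U, ∀ u ∈ U, G.Adj x u → g u ≠ c) (h2 : ∀ u ∈ U, g u ≠ c') (hf : f ∈ Om G U g) :
    sw U c c' f ∈ Om G U g := by
  rw [mem_Om] at hf ⊢
  obtain ⟨hf1, hf2⟩ := hf
  have key : ∀ x ∉ U, ∀ u ∈ U, G.Adj x u → Equiv.swap c c' (f x) ≠ f u := by
    intro x hx u hu hadj h
    have e1 : f u ≠ c := by rw [hf2 u hu]; exact h1 x hx u hu hadj
    have e2 : f u ≠ c' := by rw [hf2 u hu]; exact h2 u hu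
    have : f x = f u := by
      have := congrArg (Equiv.swap c c') h
      rw [Equiv.swap_apply_self, Equiv.swap_apply_of_ne_of_ne e1 e2] at this
      exact this
    exact hf1 x u hadj this
  refine ⟨fun x y hxy => ?_, fun u hu => ?_⟩
  · unfold sw
    by_cases hx : x ∈ U <;> by_cases hy : y ∈ U
    · simp only [hx, hy, if_true]; exact hf1 x y hxy
    · simp only [hx, hy, if_true, if_false]
      exact (key y hy x hx hxy.symm).symm
    · simp only [hx, hy, if_true, if_false]
      exact key x hx y hy hxy
    · simp only [hx, hy, if_false]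
      exact fun h => hf1 x y hxy ((Equiv.swap c c').injective h)
  · unfold sw
    rw [if_pos hu]; exact hf2 u hu

theorem cnt_swap {G : SimpleGraph V} {U : Finset V} {g : V → K} {c c' : K}
    (h1 : ∀ x ∉ U, ∀ u ∈ U, G.Adj x u → g u ≠ c) (h2 : ∀ u ∈ U, g u ≠ c') :
    cnt G U g c = cnt G U g c' := by
  unfold cnt
  refine sum_congr rfl fun x hx => ?_
  have hx' : x ∉ U := mem_compl.1 hx
  refine card_bij' (fun f _ => sw U c c' f) (fun f _ => sw U c c' f) ?_ ?_ ?_ ?_
  · intro f hf
    rw [mem_filter] at hf ⊢
    refine ⟨sw_mem h1 h2 hf.1, ?_⟩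
    unfold sw
    rw [if_neg hx', hf.2, Equiv.swap_apply_left]
  · intro f hf
    rw [mem_filter] at hf ⊢
    refine ⟨sw_mem h1 h2 hf.1, ?_⟩
    unfold sw
    rw [if_neg hx', hf.2, Equiv.swap_apply_right]
  · intro f _; exact sw_sw U c c' f
  · intro f _; exact sw_sw U c c' f

/-- the colours not used on `U` are at least as many as the vertices outside `U` -/
theorem card_fresh (U : Finset V) (g : V → K) (hVK : Fintype.card V ≤ Fintype.card K) :
    Uᶜ.card ≤ ((U.image g)ᶜ).card := by
  rw [card_compl, card_compl]
  have := card_image_le (s := U) (f := g)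
  omega

/-- **Main lemma.** A colour which is not used on `U` is used by at least as many vertices outside `U`
as any other colour, in the mean. -/
theorem cnt_le (hVK : Fintype.card V ≤ Fintype.card K) (G : SimpleGraph V) :
    ∀ (k : ℕ) (U : Finset V) (g : V → K), Uᶜ.card = k → ∀ c c' : K, (∀ u ∈ U, g u ≠ c') →
      cnt G U g c ≤ cnt G U g c' := by
  intro k
  induction k with
  | zero =>
    intro U g hU c c' _
    unfold cnt
    rw [card_eq_zero.1 hU]
    simp
  | succ k ih =>
    intro U g hU c c' hc'
    by_cases hex : ∀ x ∉ U, ∀ u ∈ U, G.Adj x u → g u ≠ c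
    · exact (cnt_swap hex hc').le
    · push Not at hex
      obtain ⟨y, hy, u, hu, hadj, hgu⟩ := hex
      have hcc : c ≠ c' := by rintro rfl; exact hc' u hu hgu
      rw [cnt_split G U g hy c, cnt_split G U g hy c']
      have hk : (insert y U)ᶜ.card = k := by
        rw [compl_eq hy, card_insert_of_notMem (by simp)] at hU
        omega
      -- no colouring with `y` coloured `c`
      have h0 : (Om G (insert y U) (Function.update g y c)).card = 0 := by
        rw [card_eq_zero, eq_empty_iff_forall_notMem]
        intro f hf
        rw [Om_insert G U g hy c, mem_filter, mem_Om] at hf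
        obtain ⟨⟨h1, h2⟩, h3⟩ := hf
        exact h1 y u hadj (by rw [h3, h2 u hu, hgu])
      rw [h0, add_zero]
      -- the colour `c'` for `y`
      have h1 : cnt G (insert y U) (Function.update g y c') c ≤
          (Om G (insert y U) (Function.update g y c')).card := by
        rcases Nat.eq_zero_or_pos k with rfl | hkpos
        · unfold cnt
          rw [card_eq_zero.1 hk]
          simp
        · set g' := Function.update g y c' with hg'
          set U' := insert y U with hU'
          have h2 : ∀ c'' ∈ (U'.image g')ᶜ, cnt G U' g' c ≤ cnt G U' g' c'' := by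
            intro c'' hc''
            refine ih U' g' hk c c'' fun w hw h => ?_
            exact (mem_compl.1 hc'') (mem_image.2 ⟨w, hw, h⟩)
          have h3 : ((U'.image g')ᶜ).card * cnt G U' g' c ≤ k * (Om G U' g').card := by
            calc ((U'.image g')ᶜ).card * cnt G U' g' c = ∑ c'' ∈ (U'.image g')ᶜ, cnt G U' g' c := by
                  rw [sum_const, smul_eq_mul]
              _ ≤ ∑ c'' ∈ (U'.image g')ᶜ, cnt G U' g' c'' := sum_le_sum h2
              _ ≤ ∑ c'', cnt G U' g' c'' := sum_le_sum_of_subset (subset_univ _)
              _ = k * (Om G U' g').card := by rw [sum_cnt, hk]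
          have h4 : k ≤ ((U'.image g')ᶜ).card := by
            rw [← hk]; exact card_fresh U' g' hVK
          have h5 : k * cnt G U' g' c ≤ k * (Om G U' g').card :=
            (Nat.mul_le_mul_right _ h4).trans h3
          exact Nat.le_of_mul_le_mul_left h5 hkpos
      -- the other colours for `y`
      have h6 : ∀ a, a ≠ c' → cnt G (insert y U) (Function.update g y a) c ≤
          cnt G (insert y U) (Function.update g y a) c' := by
        intro a ha
        refine ih (insert y U) (Function.update g y a) hk c c' fun w hw => ?_
        rcases mem_insert.1 hw with rfl | hw'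
        · rw [Function.update_self]; exact ha
        · rw [Function.update_of_ne (by rintro rfl; exact hy hw')]
          exact hc' w hw'
      rw [← add_sum_erase univ _ (mem_univ c'), ← add_sum_erase univ (fun a =>
        cnt G (insert y U) (Function.update g y a) c') (mem_univ c')]
      have h7 : ∑ a ∈ univ.erase c', cnt G (insert y U) (Function.update g y a) c ≤
          ∑ a ∈ univ.erase c', cnt G (insert y U) (Function.update g y a) c' :=
        sum_le_sum fun a ha => h6 a (ne_of_mem_erase ha)
      omega

/-- some vertex outside `U` has a colour not used on `U` with probability at least `1 / |K|` -/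
theorem exists_vertex (hVK : Fintype.card V ≤ Fintype.card K) (G : SimpleGraph V) (U : Finset V) (g : V → K)
    (hU : 0 < Uᶜ.card) (c' : K) (hc' : ∀ u ∈ U, g u ≠ c') :
    ∃ v ∉ U, (Om G U g).card ≤ Fintype.card K * (Om G (insert v U) (Function.update g v c')).card := by
  by_contra hcon
  push Not at hcon
  have h1 : ∑ x ∈ Uᶜ, Fintype.card K * ((Om G U g).filter fun f => f x = c').card <
      ∑ x ∈ Uᶜ, (Om G U g).card := by
    refine sum_lt_sum_of_nonempty (card_pos.1 hU) fun x hx => ?_
    have := hcon x (mem_compl.1 hx)
    rwa [Om_insert G U g (mem_compl.1 hx) c'] at this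
  rw [← mul_sum, sum_const, smul_eq_mul] at h1
  have h2 : Uᶜ.card * (Om G U g).card ≤ Fintype.card K * cnt G U g c' := by
    rw [← sum_cnt]
    calc ∑ c, cnt G U g c ≤ ∑ c : K, cnt G U g c' :=
          sum_le_sum fun c _ => cnt_le hVK G _ U g rfl c c' hc'
      _ = Fintype.card K * cnt G U g c' := by rw [sum_const, smul_eq_mul]; rfl
  have h3 : cnt G U g c' = ∑ x ∈ Uᶜ, ((Om G U g).filter fun f => f x = c').card := rfl
  rw [h3] at h2
  omega

/-- **Theorem.** The probability that a colour which is not used on `U` is not used at all is at most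
`(1 - 1 / |K|) ^ |V ∖ U|`. -/
theorem unused_le (hVK : Fintype.card V ≤ Fintype.card K) (G : SimpleGraph V) (c' : K) :
    ∀ (k : ℕ) (U : Finset V) (g : V → K), Uᶜ.card = k → (∀ u ∈ U, g u ≠ c') →
      (Fintype.card K : ℝ) ^ k * (((Om G U g).filter fun f => ∀ x, f x ≠ c').card : ℝ) ≤
        ((Fintype.card K : ℝ) - 1) ^ k * ((Om G U g).card : ℝ) := by
  intro k
  have hK : (1 : ℝ) ≤ Fintype.card K := by
    have : 0 < Fintype.card K := Fintype.card_pos_iff.2 ⟨c'⟩
    exact_mod_cast this
  induction k with
  | zero =>
    intro U g _ _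
    simp only [pow_zero, one_mul]
    exact_mod_cast card_filter_le _ _
  | succ k ih =>
    intro U g hU hc'
    obtain ⟨v, hv, hle⟩ := exists_vertex hVK G U g (by omega) c' hc'
    have hk : (insert v U)ᶜ.card = k := by
      rw [compl_eq hv, card_insert_of_notMem (by simp)] at hU
      omega
    have e1 : (((Om G U g).filter fun f => ∀ x, f x ≠ c').card : ℝ) =
        ∑ a ∈ univ.erase c',
          (((Om G (insert v U) (Function.update g v a)).filter fun f => ∀ x, f x ≠ c').card : ℝ) := by
      rw [card_split G U g hv, ← add_sum_erase univ _ (mem_univ c')]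
      have : (Om G (insert v U) (Function.update g v c')).filter (fun f => ∀ x, f x ≠ c') = ∅ := by
        rw [eq_empty_iff_forall_notMem]
        intro f hf
        rw [mem_filter, Om_insert G U g hv c', mem_filter] at hf
        exact hf.2 v hf.1.2
      rw [this, card_empty, zero_add]
      push_cast
      rfl
    have e2 : ((Om G U g).card : ℝ) = ((Om G (insert v U) (Function.update g v c')).card : ℝ) +
        ∑ a ∈ univ.erase c', ((Om G (insert v U) (Function.update g v a)).card : ℝ) := by
      rw [card_split' G U g hv, ← add_sum_erase univ _ (mem_univ c')]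
      push_cast
      rfl
    have h1 : (Fintype.card K : ℝ) ^ k * (((Om G U g).filter fun f => ∀ x, f x ≠ c').card : ℝ) ≤
        ((Fintype.card K : ℝ) - 1) ^ k *
          ∑ a ∈ univ.erase c', ((Om G (insert v U) (Function.update g v a)).card : ℝ) := by
      rw [e1, mul_sum, mul_sum]
      refine sum_le_sum fun a ha => ih _ _ hk fun u hu => ?_
      rcases mem_insert.1 hu with rfl | hu'
      · rw [Function.update_self]; exact ne_of_mem_erase ha
      · rw [Function.update_of_ne (by rintro rfl; exact hv hu')]
        exact hc' u hu'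
    have h2 : (Fintype.card K : ℝ) *
        ∑ a ∈ univ.erase c', ((Om G (insert v U) (Function.update g v a)).card : ℝ) ≤
        ((Fintype.card K : ℝ) - 1) * ((Om G U g).card : ℝ) := by
      have h3 : ((Om G U g).card : ℝ) ≤
          Fintype.card K * ((Om G (insert v U) (Function.update g v c')).card : ℝ) := by exact_mod_cast hle
      have h4 : ∑ a ∈ univ.erase c', ((Om G (insert v U) (Function.update g v a)).card : ℝ) =
          ((Om G U g).card : ℝ) - ((Om G (insert v U) (Function.update g v c')).card : ℝ) := by linarith
      rw [h4]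
      nlinarith
    have hpos : (0 : ℝ) ≤ ((Fintype.card K : ℝ) - 1) ^ k := pow_nonneg (by linarith) k
    calc (Fintype.card K : ℝ) ^ (k + 1) * (((Om G U g).filter fun f => ∀ x, f x ≠ c').card : ℝ)
        = (Fintype.card K : ℝ) * ((Fintype.card K : ℝ) ^ k *
          (((Om G U g).filter fun f => ∀ x, f x ≠ c').card : ℝ)) := by ring
      _ ≤ (Fintype.card K : ℝ) * (((Fintype.card K : ℝ) - 1) ^ k *
          ∑ a ∈ univ.erase c', ((Om G (insert v U) (Function.update g v a)).card : ℝ)) :=
          mul_le_mul_of_nonneg_left h1 (by linarith)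
      _ = ((Fintype.card K : ℝ) - 1) ^ k * ((Fintype.card K : ℝ) *
          ∑ a ∈ univ.erase c', ((Om G (insert v U) (Function.update g v a)).card : ℝ)) := by ring
      _ ≤ ((Fintype.card K : ℝ) - 1) ^ k * (((Fintype.card K : ℝ) - 1) * ((Om G U g).card : ℝ)) :=
          mul_le_mul_of_nonneg_left h2 hpos
      _ = ((Fintype.card K : ℝ) - 1) ^ (k + 1) * ((Om G U g).card : ℝ) := by ring

end Pool.Agent.ChromRatio12
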